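import Pool.Agent.Run7.h441.JM.FIN
import Pool.Agent.Run7.h441.JM.MORD
import Pool.Agent.Run7.h594.JM.RAM
import Pool.Agent.Run7.h594.JM.TRS
import Pool.Agent.Run7.h391.JM.MOR
import Pool.Agent.Run7.h391.JM.SUR
import Pool.Agent.Run7.h212.JM.NSQ
import Pool.Agent.Run7.h216.JM.KSL
import Pool.Agent.Run7.h216.JM.LOC
import Pool.Agent.Run7.h173.JM.COP
import Pool.Agent.Run7.h136.JM.CMP
import Pool.Agent.Run7.h136.JM.CNJ

/-!
# Jones–Manes: the arboreal Galois group of `φ(x) = k₀ (x² + 1) / x` has finite index in `C(φ)`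

For every nonzero integer `k₀`.  The definitions of `φ`, of the levels of the preimage tree `T(φ)`
with root `0`, of `Aut(T(φ))`, of the arboreal Galois group `G(φ)`, of the group `A(φ)` of Moebius
transformations `μ` with `μ(0) = 0` and `μ ∘ φ = φ ∘ μ`, and of the centralizer `C(φ)` of `A(φ)` in
`Aut(T(φ))` are in `Pool.Agent.Run7.h441.JM.Tree`.
-/

set_option autoImplicit false

namespace Pool.Agent.Results.MP_e26d5c_nt.FiniteIndex

open Run7.h441.JM

/-- For every nonzero integer `k₀` and `φ(x) = k₀ (x² + 1) / x`, the arboreal Galois group `G(φ)`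
is contained in `C(φ)` and its index in `C(φ)` is finite (`Subgroup.relIndex` is `0` exactly when
the index is infinite). -/
theorem result (k₀ : ℤ) (hk : k₀ ≠ 0) : G k₀ ≤ C k₀ ∧ (G k₀).relIndex (C k₀) ≠ 0 := by
  have hPRD : S_PRD := Run7.h173.JM.t_PRD
  have hCOP : S_COP := Run7.h173.JM.t_COP
  have hTRS : S_TRS := Run7.h594.JM.t_TRS hPRD Run7.h212.JM.t_NSQ Run7.h216.JM.t_LOC
  have hSUR : S_SUR :=
    Run7.h391.JM.t_SUR hPRD hCOP (Run7.h594.JM.t_RAM hPRD) Run7.h216.JM.t_KSL hTRS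
  exact fin_index hPRD hSUR (Run7.h391.JM.Mor.t_MOR t_MORD) Run7.h136.JM.t_CNJ Run7.h136.JM.t_CMP
    k₀ hk

end Pool.Agent.Results.MP_e26d5c_nt.FiniteIndex
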